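import Pool.Agent.Y33.SM.Stm

/-! Divergence in the quotient. -/

set_option autoImplicit false

namespace Pool.Agent.Y26.SM.CUT

open Pool.Agent.TH54.BU Pool.Agent.Y33.SM

theorem str_zpow {G : Type} [Group G] {w : GH G} {h : G} (hs : Str w h) (p : ℤ) :
    w.len (h ^ p) = p.natAbs := by
  rcases Int.natAbs_eq p with e | e
  · conv_lhs => rw [e, zpow_natCast]
    exact hs _
  · conv_lhs => rw [e, zpow_neg, zpow_natCast, w.len_inv]
    exact hs _

theorem k_pow {G : Type} [Group G] {w : GH G} {h : G} (hs : Str w h) {e : ℕ} {k : G → ℤ}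
    (P : Pj w h e k) (j : ℤ) : k (h ^ j) = j := by
  have h1 := P.near 1 0
  rw [zpow_zero, w.d_self, w.d_one, str_zpow hs] at h1
  have h2 : k 1 = 0 := by omega
  have h3 := P.shift j 1
  rw [mul_one, h2] at h3
  omega

theorem path_le {G : Type} [Group G] (w : GH G) {σ : ℕ → G} {N : ℕ}
    (hσ : ∀ k, k < N → w.d (σ k) (σ (k + 1)) ≤ 1) (a : ℕ) :
    ∀ b, a + b ≤ N → w.d (σ a) (σ (a + b)) ≤ b := by
  intro b
  induction b with
  | zero => intro _; rw [add_zero, w.d_self]
  | succ b ih =>
    intro h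
    have h1 := ih (by omega)
    have h2 := hσ (a + b) (by omega)
    have h3 := w.d_tri (σ a) (σ (a + b)) (σ (a + b + 1))
    rw [show a + (b + 1) = a + b + 1 by omega]
    omega

/-- the truncated coordinate -/
def f (T x : ℤ) : ℤ := max 0 (min T x)

/-- arithmetic of the number of steps -/
theorem arith {c C r t κ S T N : ℕ} (hr : 1 ≤ r) (hS : S = min t κ / (8 * r)) (hT : T = t / (4 * r))
    (h1 : 8 * r ≤ t) (h2 : 8 * r ≤ κ) (hN : N ≤ C * t)
    (hD : 4 * r * (c * (16 * r * C + 1) + 1) ≤ t) (hD2 : 8 * r * (c + 1) ≤ t)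
    (hκ : 128 * r * r * c * C ≤ κ) (h : T ≤ c * (N / S + 1)) : False := by
  have hm : 8 * r ≤ min t κ := le_min h1 h2
  have hS1 : 1 ≤ S := by
    rw [hS, Nat.le_div_iff_mul_le (by omega)]; omega
  have hS2 : min t κ < 8 * r * (S + 1) := by
    rw [hS]; exact Nat.lt_mul_div_succ _ (by omega)
  have hS3 : min t κ < 16 * r * S := by
    have : 8 * r * (S + 1) ≤ 16 * r * S := by
      have : 8 * r * 1 ≤ 8 * r * S := Nat.mul_le_mul_left _ hS1
      calc 8 * r * (S + 1) = 8 * r * S + 8 * r * 1 := by ring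
        _ ≤ 8 * r * S + 8 * r * S := by omega
        _ = 16 * r * S := by ring
    omega
  have hT2 : t < 4 * r * (T + 1) := by
    rw [hT]; exact Nat.lt_mul_div_succ _ (by omega)
  set q := N / S with hq
  have hq2 : q * S ≤ C * t := (Nat.div_mul_le_self N S).trans hN
  rcases le_total t κ with h3 | h3
  · rw [min_eq_left h3] at hS3
    have hq3 : q ≤ 16 * r * C := by
      have : q * S ≤ (16 * r * C) * S := by
        calc q * S ≤ C * t := hq2
          _ ≤ C * (16 * r * S) := Nat.mul_le_mul_left _ hS3.le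
          _ = (16 * r * C) * S := by ring
      exact Nat.le_of_mul_le_mul_right this (by omega)
    have h4 : c * (q + 1) ≤ c * (16 * r * C + 1) := Nat.mul_le_mul_left _ (by omega)
    have h5 : 4 * r * (T + 1) ≤ 4 * r * (c * (16 * r * C + 1) + 1) :=
      Nat.mul_le_mul_left _ (by omega)
    omega
  · rw [min_eq_right h3] at hS3
    have h4 : q * κ ≤ 16 * r * C * t := by
      calc q * κ ≤ q * (16 * r * S) := Nat.mul_le_mul_left _ hS3.le
        _ = 16 * r * (q * S) := by ring
        _ ≤ 16 * r * (C * t) := Nat.mul_le_mul_left _ hq2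
        _ = _ := by ring
    have h5 : t < 4 * r * (c * (q + 1) + 1) :=
      hT2.trans_le (Nat.mul_le_mul_left _ (by omega))
    have h6 : 2 * (t * κ) < 2 * (4 * r * (c * (q + 1) + 1) * κ) := by
      have : t * κ < 4 * r * (c * (q + 1) + 1) * κ := Nat.mul_lt_mul_of_pos_right h5 (by omega)
      omega
    have h7 : 2 * (4 * r * (c * (q + 1) + 1) * κ) = 8 * r * c * (q * κ) + 8 * r * (c + 1) * κ := by
      ring
    have h8 : 8 * r * c * (q * κ) ≤ 128 * r * r * c * C * t := by
      calc 8 * r * c * (q * κ) ≤ 8 * r * c * (16 * r * C * t) := Nat.mul_le_mul_left _ h4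
        _ = _ := by ring
    have h9 : 128 * r * r * c * C * t ≤ κ * t := Nat.mul_le_mul_right _ hκ
    have h10 : 8 * r * (c + 1) * κ ≤ t * κ := Nat.mul_le_mul_right _ hD2
    have h11 : κ * t = t * κ := mul_comm _ _
    omega

theorem t (h1 : S_KEY) (h2 : S_STR) : S_CUT := by
  intro G _ w h e k A C r hNW hs P
  obtain ⟨C1, κ1, hK⟩ := h1 G w h e k A hNW hs P
  obtain ⟨c, hc⟩ : ∃ c, c = e + C1 := ⟨_, rfl⟩
  refine ⟨4 * r * (c * (16 * r * C + 1) + 1) + 8 * r * (c + 1) + 4 * r * (e + 1) + C1 + 8 * r + 1,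
    κ1 + 8 * r + 128 * r * r * c * C + 1, ?_⟩
  intro κ hκ n F L X M _ hC hA w' Q t1 t ht _ σ N hσ h0 hN hr
  by_contra hcon
  push Not at hcon
  have hr1 : 1 ≤ r := by
    rcases Nat.eq_zero_or_pos r with h3 | h3
    · have := hr 0 (Nat.zero_le _)
      rw [h3, zero_mul] at this
      omega
    · exact h3
  have hstr' := (h2 G w κ n F L X M hC w' Q).1 h hs
  -- two almost minimal lifts
  have key : ∀ z y : G, (z : G ⧸ M) = (y : G ⧸ M) → w.len z ≤ w'.len (z : G ⧸ M) + κ →
      w.len y ≤ w'.len (z : G ⧸ M) + κ → (k z - k y).natAbs ≤ C1 := by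
    intro z y hzy hz hy
    have hm : y * z⁻¹ ∈ M := by
      rw [← QuotientGroup.eq_one_iff, QuotientGroup.mk_mul, QuotientGroup.mk_inv, hzy]
      exact mul_inv_cancel _
    have hle : ∀ m' ∈ M, w'.len (z : G ⧸ M) ≤ w.len (m' * z) := by
      intro m' hm'
      have e1 : ((m' * z : G) : G ⧸ M) = (z : G ⧸ M) := by
        rw [QuotientGroup.mk_mul, (QuotientGroup.eq_one_iff m').2 hm', one_mul]
      rw [← e1]
      exact Q.le _
    have := hK κ (by omega) n F L X M hC hA z (y * z⁻¹) hm
      (fun m' hm' => by have := hle m' hm'; omega)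
      (fun m' hm' => by
        have := hle m' hm'
        rw [inv_mul_cancel_right]
        omega)
    rwa [inv_mul_cancel_right] at this
  obtain ⟨S, hS⟩ : ∃ S, S = min t κ / (8 * r) := ⟨_, rfl⟩
  obtain ⟨T, hT⟩ : ∃ T, T = t / (4 * r) := ⟨_, rfl⟩
  have hT1 : 4 * r * T ≤ t := by rw [hT]; exact Nat.mul_div_le _ _
  have hTt : T ≤ t := by rw [hT]; exact Nat.div_le_self _ _
  have hTe : e ≤ T := by
    rw [hT, Nat.le_div_iff_mul_le (by omega)]
    have : 4 * r * (e + 1) = e * (4 * r) + 4 * r := by ring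
    omega
  have hS1 : 8 * r * S ≤ min t κ := by rw [hS]; exact Nat.mul_div_le _ _
  have hST : 2 * S ≤ T := by
    rw [hT, Nat.le_div_iff_mul_le (by omega)]
    have h3 := hS1.trans (min_le_left _ _)
    calc 2 * S * (4 * r) = 8 * r * S := by ring
      _ ≤ t := h3
  have hSκ : 2 * S ≤ κ := by
    have h3 := hS1.trans (min_le_right _ _)
    have h4 : 8 * 1 * S ≤ 8 * r * S := Nat.mul_le_mul_right _ (by omega)
    omega
  have ht8 : 8 * r ≤ t := by omega
  have hκ8 : 8 * r ≤ κ := by omega
  have hS0 : 1 ≤ S := by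
    rw [hS, Nat.le_div_iff_mul_le (by omega)]
    have := le_min ht8 hκ8
    omega
  -- the induction
  have ind : ∀ j : ℕ, ∃ z : G, (z : G ⧸ M) = σ (min (j * S) N) ∧
      w.len z = w'.len (σ (min (j * S) N)) ∧ (T : ℤ) ≤ f T (k z) + c * j := by
    intro j
    induction j with
    | zero =>
      refine ⟨h ^ t, ?_, ?_, ?_⟩
      · rw [zero_mul, Nat.zero_min, h0]; rfl
      · rw [zero_mul, Nat.zero_min, h0, hs t]; exact (hstr' t).symm
      · have h3 := k_pow hs P t
        rw [zpow_natCast] at h3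
        rw [h3]
        unfold f
        push_cast
        have : (T : ℤ) ≤ t := by exact_mod_cast hTt
        rw [min_eq_left this, max_eq_right (by positivity)]
        omega
    | succ j ih =>
      obtain ⟨z, hz1, hz2, hz3⟩ := ih
      set a := min (j * S) N with ha
      set b := min ((j + 1) * S) N with hb
      have hjs : (j + 1) * S = j * S + S := by ring
      have hab : a ≤ b := by omega
      have hbN : b ≤ N := min_le_right _ _
      have hba : b - a ≤ S := by omega
      have hd : w'.d (σ a) (σ b) ≤ S := by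
        have := path_le w' hσ a (b - a) (by omega)
        rw [show a + (b - a) = b by omega] at this
        omega
      -- lift the step
      obtain ⟨s, hs1, hs2⟩ := Q.lift ((σ a)⁻¹ * σ b)
      have hsS : w.len s ≤ S := by rw [hs2]; exact hd
      obtain ⟨y, hy1, hy2⟩ := Q.lift (σ b)
      have hzs : ((z * s : G) : G ⧸ M) = σ b := by
        rw [QuotientGroup.mk_mul, hz1, hs1, mul_inv_cancel_left]
      have hlen : w.len (z * s) ≤ w'.len (σ b) + κ := by
        have h3 := w.len_mul z s
        have h4 := w'.d_tri 1 (σ b) (σ a)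
        rw [w'.d_one, w'.d_one, w'.d_comm (σ b) (σ a)] at h4
        omega
      have hkey := key y (z * s) (by rw [hy1, hzs]) (by rw [hy1, hy2]; omega)
        (by rw [hy1]; exact hlen)
      refine ⟨y, hy1, hy2, ?_⟩
      -- the projection of the step
      have hra : 4 * T ≤ w.len z := by
        have h3 := hr a (min_le_right _ _)
        rw [w'.d_one, ← hz2] at h3
        have h4 : r * (4 * T) ≤ r * w.len z := by
          calc r * (4 * T) = 4 * r * T := by ring
            _ ≤ t := hT1
            _ ≤ _ := h3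
        exact Nat.le_of_mul_le_mul_left h4 (by omega)
      have htri : w.len z ≤ (k z).natAbs + w.d z (h ^ k z) := by
        have h3 := w.d_tri 1 (h ^ k z) z
        rw [w.d_one, w.d_one, str_zpow hs, w.d_comm (h ^ k z) z] at h3
        exact h3
      have hds : w.d z (z * s) ≤ S := by
        unfold GH.d
        rw [inv_mul_cancel_left]; exact hsS
      have hcase : (k z - k (z * s)).natAbs ≤ e ∨
          w.d z (h ^ k z) + (k z - k (z * s)).natAbs ≤ S + e := by
        rcases le_or_gt (k z - k (z * s)).natAbs e with h3 | h3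
        · exact Or.inl h3
        · have := P.proj z (z * s) h3
          right; omega
      have hc' : (c : ℤ) = e + C1 := by rw [hc]; push_cast; ring
      have hcj : (c : ℤ) * ((j + 1 : ℕ) : ℤ) = c * j + c := by push_cast; ring
      rw [hcj]
      unfold f at hz3 ⊢
      generalize (c : ℤ) * j = cj at hz3 ⊢
      rcases hcase with h3 | h3
      · omega
      · omega
  obtain ⟨z, hz1, hz2, hz3⟩ := ind (N / S + 1)
  have hJ : min ((N / S + 1) * S) N = N := by
    apply min_eq_right
    have := Nat.lt_mul_div_succ N (show 0 < S by omega)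
    rw [mul_comm] at this
    exact this.le
  rw [hJ, hN] at hz1 hz2
  have hinv : ((h ^ (-(t : ℤ)) : G) : G ⧸ M) = ((h : G ⧸ M) ^ t)⁻¹ := by
    rw [zpow_neg, zpow_natCast]; rfl
  have hkey := key z (h ^ (-(t : ℤ))) (by rw [hz1, hinv]) (by rw [hz1, hz2]; omega)
    (by rw [hz1, w'.len_inv, hstr' t, str_zpow hs]; omega)
  rw [k_pow hs P] at hkey
  have hk0 : k z ≤ 0 := by omega
  have hf : f T (k z) = 0 := by
    unfold f
    omega
  rw [hf, zero_add] at hz3
  have hfin : T ≤ c * (N / S + 1) := by exact_mod_cast hz3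
  exact arith hr1 hS hT ht8 hκ8 hcon (by omega) (by omega) (by omega) hfin

end Pool.Agent.Y26.SM.CUT
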