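import Pool.Agent.Y33.SM.Stm
import Pool.Agent.TH54.BU.WindF

/-! Projections of two almost minimal lifts. -/

set_option autoImplicit false

namespace Pool.Agent.Y26.SM.KEY

open Pool.Agent.TH54.BU Pool.Agent.Y33.SM

variable {G : Type} [Group G] {w : GH G} {κ n : ℕ} {F : GH G} {L : LS F 1100 234003 2}
  {X : Set G} {M : Subgroup G}

theorem F_mono (C : Ctx w κ n L X M) {a b : G} (h : w.len a ≤ w.len b) : F.len a ≤ F.len b := by
  rw [C.resc, C.resc]
  exact Nat.div_le_div_right (by omega)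

/-- the projection to the line of `h` of a point far from `1` in the direction of a line -/
theorem near_pr (C : Ctx w κ n L X M) (h2 : S_OV) {h : G} {e : ℕ} {k : G → ℤ} (hs : Str w h)
    (P : Pj w h e k) {i : L.ι} {u z : G} (hz : 10 ^ 7 ≤ |L.s i u 1 z|) :
    (k z - k (L.pr i u z)).natAbs ≤ e := by
  by_contra hcon
  push Not at hcon
  have h3 := P.proj z (L.pr i u z) hcon
  have h4 : w.d z (h ^ k z) ≤ w.d z (L.pr i u z) := by omega
  have h5 : F.d z (h ^ k z) ≤ F.d z (L.pr i u z) := F_mono C h4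
  have h6 := h2 G w κ n F L X M C h hs i u 1 0 (k z)
  rw [zpow_zero, one_mul, one_mul] at h6
  have h7 := L.wf_lin_z i (L.s i u 1 (h ^ k z))
  have h8 : (L.s i u 1 (h ^ k z)).natAbs ≤ 468006 := by
    have : F.len (L.x i ^ L.s i u 1 (h ^ k z)) ≤ 234003 := h6
    omega
  have h9 := L.wf_s_add i u 1 (h ^ k z) z
  have h10 : 9000000 ≤ (L.s i u (h ^ k z) z).natAbs := by
    have : (10 : ℤ) ^ 7 = 10000000 := by norm_num
    rw [this, Int.abs_eq_natAbs] at hz
    omega
  have h11 := L.wf_lin_z i (L.s i u (h ^ k z) z)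
  have h12 : 4500000 ≤ L.D i u (h ^ k z) z := by
    have : (L.s i u (h ^ k z) z).natAbs ≤ 2 * L.D i u (h ^ k z) z := h11
    omega
  have h13 := L.wf_proj_s i u (h ^ k z) z (by omega)
  rw [F.d_comm] at h5
  omega

theorem t (h1 : S_MIN) (h2 : S_OV) : S_KEY := by
  intro G _ w h e k A _ hs P
  refine ⟨2 * e + A, 0, ?_⟩
  intro κ _ n F L X M C hA z m hm hz hmz
  by_cases hm1 : m = 1
  · rw [hm1, one_mul, sub_self]; simp
  obtain ⟨i, u, hg⟩ := C.fil.gr m hm hm1 z
  have k1 := h1 G w κ n F L X M C 1 z (by norm_num) (by simpa using hz) i u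
  have k2 := h1 G w κ n F L X M C 1 (m * z) (by norm_num) (fun m' hm' => by
    have := hmz (m' * m) (M.mul_mem hm' hm)
    rw [mul_assoc] at this
    simpa using this) i u
  have k3 := L.wf_s_add i u z 1 (m * z)
  have k4 := L.wf_s_symm i u z 1
  have hthr : L.thr = 472408 := rfl
  rw [hthr] at hg
  have hn : (10 : ℤ) ^ 12 ≤ n := by exact_mod_cast C.hn
  have e12 : (10 : ℤ) ^ 12 = 1000000000000 := by norm_num
  have e7 : (10 : ℤ) ^ 7 = 10000000 := by norm_num
  rw [e12] at hn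
  push_cast at k1 k2 hg
  rw [Int.abs_eq_natAbs] at hg k1 k2
  have n1 : 10 ^ 7 ≤ |L.s i u 1 z| := by
    rw [e7, Int.abs_eq_natAbs]
    omega
  have n2 : 10 ^ 7 ≤ |L.s i u 1 (m * z)| := by
    rw [e7, Int.abs_eq_natAbs]
    omega
  have p1 := near_pr C h2 hs P n1
  have p2 := near_pr C h2 hs P n2
  have p3 : (k (L.pr i u z) - k (L.pr i u (m * z))).natAbs ≤ A := hA _ (C.mem i) u _ _
  omega

end Pool.Agent.Y26.SM.KEY
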