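import Pool.Agent.Y33.SM.Stm
import Pool.Agent.TH54.BU.WindF
import Pool.Agent.TH54.BU.Close

/-! The two lines remain transverse in the quotient. -/

set_option autoImplicit false

namespace Pool.Agent.Y26.SM.NCQ

open Pool.Agent.TH54.BU Pool.Agent.Y33.SM

variable {G : Type} [Group G] {w : GH G} {κ n : ℕ} {F : GH G} {L : LS F 1100 234003 2}
  {X : Set G} {M : Subgroup G}

theorem str_zpow {h : G} (hs : Str w h) (p : ℤ) : w.len (h ^ p) = p.natAbs := by
  rcases Int.natAbs_eq p with e | e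
  · conv_lhs => rw [e, zpow_natCast]
    exact hs _
  · conv_lhs => rw [e, zpow_neg, zpow_natCast, w.len_inv]
    exact hs _

theorem s_small (C : Ctx w κ n L X M) (h2 : S_OV) {h : G} (hs : Str w h) (i : L.ι) (u g : G)
    (p q : ℤ) : (L.s i u (g * h ^ p) (g * h ^ q)).natAbs ≤ 468006 := by
  have h6 := h2 G w κ n F L X M C h hs i u g p q
  have h7 := L.wf_lin_z i (L.s i u (g * h ^ p) (g * h ^ q))
  have : F.len (L.x i ^ L.s i u (g * h ^ p) (g * h ^ q)) ≤ 234003 := h6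
  omega

theorem near_end (i : L.ι) (u p q : G) (h : 10 ^ 7 ≤ (L.s i u p q).natAbs) :
    F.d p (L.pr i u p) ≤ F.d p q + 1100 ∧ F.d q (L.pr i u q) ≤ F.d p q + 1100 := by
  have h11 := L.wf_lin_z i (L.s i u p q)
  have h12 : 4500000 ≤ L.D i u p q := by
    have : (L.s i u p q).natAbs ≤ 2 * L.D i u p q := h11
    have e7 : 10 ^ 7 = 10000000 := by norm_num
    omega
  have h13 := L.wf_proj_s i u p q (by omega)
  omega

theorem t (h1 : S_MIN) (h2 : S_OV) : S_NCQ := by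
  intro G _ w κ n F L X M _ C w' Q h h' hs hs' hnc g' p q hp heq
  obtain ⟨g, rfl, hg⟩ := Q.lift g'
  have hκ : 0 < κ := by have := C.hκ; omega
  -- minimality
  have hmin : ∀ m ∈ M, w.len g ≤ w.len (m * g) := by
    intro m hm
    have e : ((m * g : G) : G ⧸ M) = (g : G ⧸ M) := by
      rw [QuotientGroup.mk_mul, (QuotientGroup.eq_one_iff m).2 hm, one_mul]
    rw [hg, ← e]
    exact Q.le _
  have hmin' : ∀ m ∈ M, w.len g⁻¹ ≤ w.len (m * g⁻¹) := by
    intro m hm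
    have h3 := hmin (g * m⁻¹ * g⁻¹) (C.fil.normal.conj_mem _ (M.inv_mem hm) g)
    rw [w.len_inv, ← w.len_inv (m * g⁻¹)]
    rwa [show g * m⁻¹ * g⁻¹ * g = (m * g⁻¹)⁻¹ by group] at h3
  -- a large power
  set R : ℕ := 2 * F.len g + 300000 with hR
  set N : ℕ := κ * R with hN
  have hN0 : N ≠ 0 := by rw [hN]; positivity
  set b : G := h ^ (q * N) with hb
  set c1 : G := g * h' ^ (p * N) with hc1
  have hab : ((c1 * g⁻¹ : G) : G ⧸ M) = (b : G) := by
    have : ((g : G ⧸ M) * (h' : G ⧸ M) ^ p * (g : G ⧸ M)⁻¹) ^ N = ((h : G ⧸ M) ^ q) ^ N := by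
      rw [heq]
    rw [conj_pow, ← zpow_natCast, ← zpow_mul, ← zpow_natCast, ← zpow_mul] at this
    rw [hc1, hb]
    push_cast [QuotientGroup.mk_mul, QuotientGroup.mk_inv, QuotientGroup.mk_zpow]
    exact this
  set m : G := c1 * g⁻¹ * b⁻¹ with hm
  have hmM : m ∈ M := by
    rw [← QuotientGroup.eq_one_iff, hm, QuotientGroup.mk_mul, QuotientGroup.mk_inv, hab]
    exact mul_inv_cancel _
  have hmb : m * b = c1 * g⁻¹ := by rw [hm]; group
  by_cases hm1 : m = 1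
  · rw [hm1, one_mul] at hmb
    refine hnc g (p * N) (q * N) (mul_ne_zero hp (by exact_mod_cast hN0)) ?_
    rw [← hc1, ← hb]; exact hmb.symm
  obtain ⟨i, u, hgr⟩ := C.fil.gr m hmM hm1 b
  rw [hmb] at hgr
  have hthr : L.thr = 472408 := rfl
  rw [hthr] at hgr
  have hn : (10 : ℤ) ^ 12 ≤ n := by exact_mod_cast C.hn
  have e12 : (10 : ℤ) ^ 12 = 1000000000000 := by norm_num
  rw [e12] at hn
  have a1 := L.wf_s_add i u b 1 (c1 * g⁻¹)
  have a2 := L.wf_s_add i u 1 g (c1 * g⁻¹)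
  have a3 := L.wf_s_add i u g c1 (c1 * g⁻¹)
  have b1 := s_small C h2 hs i u 1 (q * N) 0
  rw [zpow_zero, one_mul, one_mul, ← hb] at b1
  have b2 := h1 G w κ n F L X M C 0 g (by norm_num) (fun m hm => by simpa using hmin m hm) i u
  have b3 := s_small C h2 hs' i u g 0 (p * N)
  rw [zpow_zero, mul_one, ← hc1] at b3
  have b4 := h1 G w κ n F L X M C 0 g⁻¹ (by norm_num) (fun m hm => by simpa using hmin' m hm) i
    (c1⁻¹ * u)
  have b5 := L.wf_s_mul i c1 (c1⁻¹ * u) 1 g⁻¹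
  rw [mul_inv_cancel_left, mul_one] at b5
  rw [← b5] at b4
  push_cast at b2 b4 hgr
  rw [Int.abs_eq_natAbs] at b2 b4 hgr
  have e7 : 10 ^ 7 = 10000000 := by norm_num
  have n1 : 10 ^ 7 ≤ (L.s i u 1 g).natAbs := by omega
  have n2 : 10 ^ 7 ≤ (L.s i u c1 (c1 * g⁻¹)).natAbs := by omega
  have d1 := (near_end i u 1 g n1).2
  have d2 := (near_end i u c1 (c1 * g⁻¹) n2).1
  have d3 := L.cl_d_le i u g c1
  have d4 := h2 G w κ n F L X M C h' hs' i u g 0 (p * N)
  rw [zpow_zero, mul_one, ← hc1] at d4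
  have d5 : F.d 1 g = F.len g := F.d_one g
  have d6 : F.d c1 (c1 * g⁻¹) = F.len g := by
    unfold GH.d
    rw [inv_mul_cancel_left, F.len_inv]
  have d7 : F.d g c1 = F.len (h' ^ (p * N)) := by
    unfold GH.d
    rw [hc1, inv_mul_cancel_left]
  have d8 : R ≤ F.len (h' ^ (p * N)) := by
    rw [C.resc, str_zpow hs', Int.natAbs_mul, Int.natAbs_natCast, Nat.le_div_iff_mul_le hκ]
    have hp1 : 1 ≤ p.natAbs := by omega
    have : 1 * N ≤ p.natAbs * N := Nat.mul_le_mul_right _ hp1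
    have h9 : R * κ = N := by rw [hN, mul_comm]
    omega
  omega

end Pool.Agent.Y26.SM.NCQ
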